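import Pool.Agent.Helper78.DT.Goals2

set_option autoImplicit false

/-!
# Project DT, packet PARB: the number of the seeds is polynomial
-/

namespace Pool.Agent.Helper2.DT

open Pool.Agent.Helper78.DT

theorem lt_two_pow' (t : ℕ) : t + 1 ≤ 2 ^ t := Nat.lt_two_pow_self

theorem parb (hN : NprStmt) (hT : TllStmt) (hC : CpwStmt) : ParbStmt := by
  intro c a β
  set C' := 2 * a + 9 with hC'
  set A := 1 + (c + 6) * C' with hA
  set B := 18 + (3 * c + 12) * C' with hB
  refine ⟨2 * A + B + B * 2 ^ β * (6 * (c + 9) + 1), 1, fun L hL cap hcap => ?_⟩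
  obtain ⟨t1, t2⟩ := (hT a).1 L hL
  set t := tt a L with ht
  have hLp : 0 < L := hL
  have hP := hN (L ^ (c + 6)) (by positivity)
  have hP1 : 1 ≤ PP c L := le_trans (Nat.one_le_iff_ne_zero.2 (by positivity)) hP.2.1
  have hq1 : 1 ≤ qn c L := Nat.one_le_iff_ne_zero.2 (by unfold qn; positivity)
  have hqP : 0 < qn c L * PP c L := Nat.mul_pos hq1 hP1
  have hR := hN (qn c L * PP c L) hqP
  have hR1 : 1 ≤ RR c L := le_trans hqP hR.2.1
  have hPle : PP c L ≤ 2 * L ^ (c + 6) := hP.2.2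
  have hRle : RR c L ≤ 2 * (qn c L * PP c L) := hR.2.2
  have h2t : 2 ^ t * 2 ^ t ≤ L := by
    refine le_trans ?_ t1
    rw [← pow_add]
    exact Nat.pow_le_pow_right (by norm_num) (by nlinarith)
  have hpow : ∀ k, L ^ k ≤ 2 ^ (k * C' * (t + 1)) := by
    intro k
    calc L ^ k ≤ (2 ^ (C' * (t + 1))) ^ k := Nat.pow_le_pow_left t2.le k
      _ = 2 ^ (k * C' * (t + 1)) := by rw [← pow_mul]; congr 1; ring
  have ht1 := lt_two_pow' t
  have ht1L : t + 1 ≤ L := ht1.trans (le_trans (Nat.le_mul_of_pos_right _ (by positivity)) h2t)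
  -- first factor
  have hP2 : PP c L ≤ 2 ^ (A * (t + 1)) := by
    calc PP c L ≤ 2 * L ^ (c + 6) := hPle
      _ ≤ 2 * 2 ^ ((c + 6) * C' * (t + 1)) := Nat.mul_le_mul_left 2 (hpow _)
      _ = 2 ^ (1 + (c + 6) * C' * (t + 1)) := by rw [pow_add, pow_one]
      _ ≤ 2 ^ (A * (t + 1)) := Nat.pow_le_pow_right (by norm_num) (by rw [hA]; nlinarith)
  have f1 : PP c L ^ (t + 2) ≤ 2 ^ (2 * A * L) := by
    calc PP c L ^ (t + 2) ≤ (2 ^ (A * (t + 1))) ^ (t + 2) := Nat.pow_le_pow_left hP2 _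
      _ = 2 ^ (A * (t + 1) * (t + 2)) := by rw [← pow_mul]
      _ ≤ 2 ^ (2 * A * L) := by
        refine Nat.pow_le_pow_right (by norm_num) ?_
        have h1 : (t + 1) * (t + 2) ≤ 2 ^ t * (2 * 2 ^ t) := by
          refine Nat.mul_le_mul ht1 ?_
          omega
        calc A * (t + 1) * (t + 2) = A * ((t + 1) * (t + 2)) := by ring
          _ ≤ A * (2 ^ t * (2 * 2 ^ t)) := Nat.mul_le_mul_left A h1
          _ = 2 * A * (2 ^ t * 2 ^ t) := by ring
          _ ≤ 2 * A * L := Nat.mul_le_mul_left _ h2t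
  -- third base
  have hqP2 : qn c L * PP c L ≤ 2 ^ (17 + (3 * c + 12) * C' * (t + 1)) := by
    calc qn c L * PP c L ≤ (2 ^ 16 * L ^ (2 * c + 6)) * (2 * L ^ (c + 6)) :=
          Nat.mul_le_mul_left _ hPle
      _ = 2 ^ 17 * L ^ (3 * c + 12) := by
        have : 3 * c + 12 = (2 * c + 6) + (c + 6) := by ring
        rw [this, pow_add L]
        ring
      _ ≤ 2 ^ 17 * 2 ^ ((3 * c + 12) * C' * (t + 1)) := Nat.mul_le_mul_left _ (hpow _)
      _ = 2 ^ (17 + (3 * c + 12) * C' * (t + 1)) := by rw [pow_add]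
  have hqP3 : qn c L * PP c L ≤ 2 ^ (B * (t + 1)) :=
    hqP2.trans (Nat.pow_le_pow_right (by norm_num) (by rw [hB]; nlinarith))
  have hR2 : RR c L ≤ 2 ^ (B * (t + 1)) := by
    calc RR c L ≤ 2 * (qn c L * PP c L) := hRle
      _ ≤ 2 * 2 ^ (17 + (3 * c + 12) * C' * (t + 1)) := Nat.mul_le_mul_left 2 hqP2
      _ = 2 ^ (18 + (3 * c + 12) * C' * (t + 1)) := by
        rw [show 18 + (3 * c + 12) * C' * (t + 1) = 1 + (17 + (3 * c + 12) * C' * (t + 1)) by ring,
          pow_add 2 1, pow_one]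
      _ ≤ 2 ^ (B * (t + 1)) := Nat.pow_le_pow_right (by norm_num) (by rw [hB]; nlinarith)
  have f2 : RR c L ^ dd a L ≤ 2 ^ (B * L) := by
    calc RR c L ^ dd a L ≤ (2 ^ (B * (t + 1))) ^ dd a L := Nat.pow_le_pow_left hR2 _
      _ = 2 ^ (B * (t + 1) * dd a L) := by rw [← pow_mul]
      _ ≤ 2 ^ (B * L) := by
        refine Nat.pow_le_pow_right (by norm_num) ?_
        have h1 : (t + 1) * dd a L ≤ 2 ^ (C' * t) := by
          unfold dd
          rw [← ht]
          calc (t + 1) * 2 ^ (t * (2 * a + 8)) ≤ 2 ^ t * 2 ^ (t * (2 * a + 8)) :=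
                Nat.mul_le_mul_right _ ht1
            _ = 2 ^ (C' * t) := by
              rw [← pow_add]
              congr 1
              rw [hC']
              ring
        calc B * (t + 1) * dd a L = B * ((t + 1) * dd a L) := by ring
          _ ≤ B * 2 ^ (C' * t) := Nat.mul_le_mul_left B h1
          _ ≤ B * L := Nat.mul_le_mul_left B t1
  have f3 : (qn c L * PP c L) ^ KK c a β L ≤ 2 ^ (B * 2 ^ β * (6 * (c + 9) + 1) * L) := by
    calc (qn c L * PP c L) ^ KK c a β L ≤ (2 ^ (B * (t + 1))) ^ KK c a β L :=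
          Nat.pow_le_pow_left hqP3 _
      _ = 2 ^ (B * (t + 1) * KK c a β L) := by rw [← pow_mul]
      _ ≤ 2 ^ (B * 2 ^ β * (6 * (c + 9) + 1) * L) := by
        refine Nat.pow_le_pow_right (by norm_num) ?_
        have h1 : (t + 1) * (6 * WW c L / (t + 1) + 1) ≤ (6 * (c + 9) + 1) * L := by
          have h2 : (t + 1) * (6 * WW c L / (t + 1)) ≤ 6 * WW c L := Nat.mul_div_le _ _
          calc (t + 1) * (6 * WW c L / (t + 1) + 1)
              = (t + 1) * (6 * WW c L / (t + 1)) + (t + 1) := by ring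
            _ ≤ 6 * WW c L + L := add_le_add h2 ht1L
            _ = (6 * (c + 9) + 1) * L := by unfold WW; ring
        calc B * (t + 1) * KK c a β L
            = B * 2 ^ β * ((t + 1) * (6 * WW c L / (t + 1) + 1)) := by unfold KK; rw [← ht]; ring
          _ ≤ B * 2 ^ β * ((6 * (c + 9) + 1) * L) := Nat.mul_le_mul_left _ h1
          _ = B * 2 ^ β * (6 * (c + 9) + 1) * L := by ring
  have hcap1 : 1 ≤ cap := le_trans (Nat.one_le_two_pow) hcap
  have g : ∀ e, e ≤ 2 * A + B + B * 2 ^ β * (6 * (c + 9) + 1) → 2 ^ (e * L) ≤ cap := fun e he =>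
    le_trans (Nat.pow_le_pow_right (by norm_num) (Nat.mul_le_mul_right L he)) hcap
  unfold Zc ZZ
  rw [hC cap _ _ hcap1 hP1, hC cap _ _ hcap1 hR1, hC cap _ _ hcap1 hqP,
    min_eq_right (f1.trans (g _ (by omega))), min_eq_right (f2.trans (g _ (by omega))),
    min_eq_right (f3.trans (g _ (by omega)))]

end Pool.Agent.Helper2.DT
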